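import Pool.Agent.UL6.Stmts
import Pool.Agent.Helper7_UL5.DCB

/-!
# Squad UL6, row FGV: the frustum is a convex body; its volume
-/

set_option autoImplicit false

namespace Pool.Agent.UL6.H7

open MeasureTheory Set Filter Pool.Agent.UL3 Pool.Agent.UL4 Pool.Agent.UL5
open scoped Topology Pointwise

section

variable {C : Set (ℝ × ℝ)} {k h : ℝ}

theorem frg_cpt (hC : PB C) : IsCompact (frg C k h) := by
  have h1 : frg C k h = (fun q : (ℝ × ℝ) × ℝ => up ((1 - k * q.2) • q.1) q.2) '' (C ×ˢ Icc 0 h) := by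
    ext x
    constructor
    · rintro ⟨h0, h1, c, hc, hx⟩
      refine ⟨(c, x 2), ⟨hc, h0, h1⟩, ?_⟩
      show up ((1 - k * x 2) • c) (x 2) = x
      rw [← hx]
      exact up_self x
    · rintro ⟨⟨c, z⟩, ⟨hc, h0, h1⟩, rfl⟩
      exact ⟨h0, h1, c, hc, rfl⟩
  rw [h1]
  have hc : Continuous fun q : (ℝ × ℝ) × ℝ =>
      (((1 - k * q.2) • q.1, q.2) : (ℝ × ℝ) × ℝ) := by fun_prop
  exact (hC.cpt.prod isCompact_Icc).image (UL5.H7.up_cont.comp hc)

theorem frg_cvx (hC : PB C) (hk : 0 ≤ k) (hkh : k * h ≤ 1) : Convex ℝ (frg C k h) := by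
  rintro x ⟨h0, h1, c, hc, hx⟩ y ⟨k0, k1, d, hd, hy⟩ a b ha hb hab
  have e1 : k * x 2 ≤ 1 := (mul_le_mul_of_nonneg_left h1 hk).trans hkh
  have e2 : k * y 2 ≤ 1 := (mul_le_mul_of_nonneg_left k1 hk).trans hkh
  obtain ⟨e, he, heq⟩ := UL5.H7.comb hC hc hd (p := a * (1 - k * x 2)) (q := b * (1 - k * y 2))
    (s := 1 - k * (a * x 2 + b * y 2)) (mul_nonneg ha (by linarith)) (mul_nonneg hb (by linarith))
    (by
      have : a * (1 - k * x 2) + b * (1 - k * y 2)
        = (a + b) - k * (a * x 2 + b * y 2) := by ring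
      rw [this, hab])
  refine ⟨?_, ?_, e, he, ?_⟩
  · show 0 ≤ a * x 2 + b * y 2
    positivity
  · show a * x 2 + b * y 2 ≤ h
    have e3 : a * x 2 ≤ a * h := mul_le_mul_of_nonneg_left h1 ha
    have e4 : b * y 2 ≤ b * h := mul_le_mul_of_nonneg_left k1 hb
    have e5 : a * h + b * h = h := by rw [← add_mul, hab, one_mul]
    linarith
  · show (a * x 0 + b * y 0, a * x 1 + b * y 1) = (1 - k * (a * x 2 + b * y 2)) • e
    rw [← heq, ← smul_smul, ← smul_smul, ← hx, ← hy]
    rfl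

theorem frg_int (hC : PB C) (hk : 0 ≤ k) (hh : 0 < h) (hkh : k * h ≤ 1) :
    (interior (frg C k h)).Nonempty := by
  have hU : IsOpen {x : E3 | 0 < x 2 ∧ x 2 < h / 2 ∧ (2 : ℝ) • (x 0, x 1) ∈ interior C} := by
    refine (isOpen_lt continuous_const UL5.H7.ht_cont).inter
      ((isOpen_lt UL5.H7.ht_cont continuous_const).inter ?_)
    have hc : Continuous fun x : E3 => (2 : ℝ) • ((x 0, x 1) : ℝ × ℝ) := by fun_prop
    exact isOpen_interior.preimage hc
  refine ⟨up 0 (h / 4), mem_interior.2 ⟨_, ?_, hU, ?_⟩⟩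
  · rintro x ⟨h0, h1, h2⟩
    have h3 : k * x 2 ≤ 1 / 2 := by
      have := mul_le_mul_of_nonneg_left h1.le hk
      linarith
    have hpos : 0 < 1 - k * x 2 := by linarith
    have h3 := UL5.H7.shrink hC (interior_subset h2) (s := 1 / (2 * (1 - k * x 2))) (by positivity)
      ((div_le_one (by positivity)).2 (by linarith))
    refine ⟨h0.le, by linarith, _, h3, ?_⟩
    rw [smul_smul, smul_smul]
    have : (1 - k * x 2) * (1 / (2 * (1 - k * x 2))) * 2 = 1 := by field_simp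
    rw [this, one_smul]
  · refine ⟨?_, ?_, ?_⟩
    · rw [up_two]; linarith
    · rw [up_two]; linarith
    · have : (2 : ℝ) • ((up 0 (h / 4)) 0, (up 0 (h / 4)) 1) = (0 : ℝ × ℝ) := by
        rw [up_zero, UL3.up_one]
        simp
      rw [this]
      exact hC.zero_mem

theorem al_frg {t : ℝ} (ht : t ∈ Icc (0 : ℝ) h) : al (frg C k h) t = (1 - k * t) ^ 2 * ar C := by
  have h1 : sec (frg C k h) t = (1 - k * t) • C := by
    ext p
    rw [mem_sec]
    constructor
    · rintro ⟨-, -, c, hc, hx⟩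
      exact ⟨c, hc, hx.symm⟩
    · rintro ⟨c, hc, hx⟩
      exact ⟨ht.1, ht.2, c, hc, hx.symm⟩
  unfold al ar
  rw [h1, measureReal_def, Measure.addHaar_smul, ENNReal.toReal_mul, measureReal_def]
  have h2 : Module.finrank ℝ (ℝ × ℝ) = 2 := by simp
  rw [h2, ENNReal.toReal_ofReal (abs_nonneg _), abs_of_nonneg (by positivity)]

theorem al_frg' {t : ℝ} (ht : t ∉ Icc (0 : ℝ) h) : al (frg C k h) t = 0 := by
  have h1 : sec (frg C k h) t = ∅ := by
    ext p
    rw [mem_sec]
    constructor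
    · rintro ⟨h1, h2, -⟩
      exact absurd ⟨h1, h2⟩ ht
    · intro h
      exact absurd h (notMem_empty p)
  unfold al
  rw [h1, measureReal_empty]

theorem vol_frg (hC : PB C) (hh : 0 < h) :
    V (frg C k h) = (h - k * h ^ 2 + k ^ 2 * h ^ 3 / 3) * ar C := by
  have h1 := (UL3.H34.main (frg_cpt (k := k) (h := h) hC) (g := fun _ => 1) continuous_const).2
  have h2 : ∫ _ in frg C k h, (1 : ℝ) = V (frg C k h) := by
    rw [setIntegral_const, smul_eq_mul, mul_one]
    rfl
  rw [← h2, h1]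
  have h3 : (fun t => (1 : ℝ) * al (frg C k h) t)
      = (Icc (0 : ℝ) h).indicator fun t => (1 - k * t) ^ 2 * ar C := by
    funext t
    rw [one_mul]
    by_cases ht : t ∈ Icc (0 : ℝ) h
    · rw [indicator_of_mem ht, al_frg ht]
    · rw [indicator_of_notMem ht, al_frg' ht]
  rw [h3, integral_indicator measurableSet_Icc, integral_Icc_eq_integral_Ioc,
    ← intervalIntegral.integral_of_le hh.le, intervalIntegral.integral_mul_const]
  have h4 : ∫ t in (0 : ℝ)..h, (1 - k * t) ^ 2 = h - k * h ^ 2 + k ^ 2 * h ^ 3 / 3 := by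
    have e1 : ∀ t ∈ uIcc (0 : ℝ) h, HasDerivAt (fun t : ℝ => t - k * t ^ 2 + k ^ 2 * t ^ 3 / 3)
        ((1 - k * t) ^ 2) t := by
      intro t _
      have d1 : HasDerivAt (fun t : ℝ => t) 1 t := hasDerivAt_id t
      have d2 : HasDerivAt (fun t : ℝ => k * t ^ 2) (k * (2 * t)) t := by
        have := (hasDerivAt_pow 2 t).const_mul k
        refine this.congr_deriv ?_
        norm_num
      have d3 : HasDerivAt (fun t : ℝ => k ^ 2 * t ^ 3 / 3) (k ^ 2 * (3 * t ^ 2) / 3) t := by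
        have := ((hasDerivAt_pow 3 t).const_mul (k ^ 2)).div_const 3
        refine this.congr_deriv ?_
        norm_num
      have := (d1.sub d2).add d3
      refine this.congr_deriv ?_
      ring
    rw [intervalIntegral.integral_eq_sub_of_hasDerivAt e1
      (Continuous.intervalIntegrable (by fun_prop) _ _)]
    ring
  rw [h4]

end

/-- **FGV**. -/
theorem fgv : FgvStmt := by
  intro C k h hC hk hh hkh
  exact ⟨⟨frg_cpt hC, frg_cvx hC hk hkh, frg_int hC hk hh hkh⟩, vol_frg hC hh⟩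

end Pool.Agent.UL6.H7
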