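import Pool.Agent.UL6.Stmts
import Pool.Agent.Helper27_UL5.HMX

/-!
# Squad UL6, row SEB: selection for the slab arrangement
-/

set_option autoImplicit false

namespace Pool.Agent.UL6.H7

open MeasureTheory Set Pool.Agent.UL3 Pool.Agent.UL4 Pool.Agent.UL5

theorem ar_pos {C : Set (ℝ × ℝ)} (h : PB C) : 0 < ar C := by
  unfold ar
  rw [measureReal_def]
  refine ENNReal.toReal_pos ?_ h.cpt.measure_lt_top.ne
  have h1 : 0 < volume (interior C) := isOpen_interior.measure_pos volume h.int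
  exact (h1.trans_le (measure_mono interior_subset)).ne'

/-- **SEB**. -/
theorem seb (hSEG : SegStmt) (hCHC : ChcStmt) (hPLM : PlmStmt) : SebStmt := by
  intro C t hC ht1 ht2
  have har := ar_pos hC
  have hp1 : 0 < 1 + t := by linarith
  have hp2 : 0 < 1 + t + t ^ 2 := by positivity
  have ht0 : 0 < t := by linarith
  have hsq : t ^ 2 ≤ 17 / 20 * t := by nlinarith
  have hsq' : 2 / 5 * t ≤ t ^ 2 := by nlinarith
  obtain ⟨w, hw⟩ : ∃ w : ℝ, w = 1 / (1 + t) := ⟨_, rfl⟩
  obtain ⟨m, hm⟩ : ∃ m : ℝ, m = 4000 * (1 + t + t ^ 2) / (4443 * (1 + t)) := ⟨_, rfl⟩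
  obtain ⟨r, hr⟩ : ∃ r : ℝ, r = 4443 / (4000 * (1 + t + t ^ 2)) := ⟨_, rfl⟩
  have hw0 : 0 < w := by rw [hw]; positivity
  have hm0 : 0 < m := by rw [hm]; positivity
  have hr0 : 0 < r := by rw [hr]; positivity
  have ew : w * (1 + t) = 1 := by rw [hw]; field_simp
  have em : m * (4443 * (1 + t)) = 4000 * (1 + t + t ^ 2) := by rw [hm]; field_simp
  have er : r * (4000 * (1 + t + t ^ 2)) = 4443 := by rw [hr]; field_simp
  have hm2 : m < 2 := by
    rw [hm, div_lt_iff₀ (by positivity)]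
    nlinarith
  have hr34 : r ≤ 3 / 4 := by
    rw [hr, div_le_iff₀ (by positivity)]
    nlinarith
  -- `r m (1 + t) = 1`
  have erm : r * m * (1 + t) = 1 := by
    rw [hr, hm]
    field_simp
    try norm_num
  have hrw : r * (2 - m) ≤ w := by
    have e1 : 2 * (r * (1 + t)) ≤ 2 := by
      rw [hr, div_mul_eq_mul_div, mul_div_assoc', div_le_iff₀ (by positivity)]
      nlinarith
    have e2 : r * (2 - m) * (1 + t) ≤ w * (1 + t) := by
      rw [ew]
      nlinarith
    exact le_of_mul_le_mul_right e2 hp1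
  -- the conclusion from the first alternative
  have fin : ∀ u q : ℝ × ℝ, u ∈ C → u ∉ interior C → 4 * r * Hm C u ≤ ar C →
      cr u q = m / 4 * ar C → (∀ s : ℝ, w ≤ |s| → q + s • u ∉ interior C) →
      ∃ u q : ℝ × ℝ, u ∈ C ∧ u ∉ interior C ∧
        4443 / 1000 * Hm C u ≤ (1 + t + t ^ 2) * ar C ∧
        4443 / 1000 * (1 + t) * cr u q = (1 + t + t ^ 2) * ar C ∧
        ∀ s : ℝ, 1 / (1 + t) ≤ |s| → q + s • u ∉ interior C := by
    intro u q hu hu' h1 h2 h3
    refine ⟨u, q, hu, hu', ?_, ?_, fun s hs => h3 s (hw ▸ hs)⟩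
    · have e1 := mul_le_mul_of_nonneg_left h1 hp2.le
      have e2 : (1 + t + t ^ 2) * (4 * r * Hm C u) = 4443 / 1000 * Hm C u := by
        have : (1 + t + t ^ 2) * (4 * r * Hm C u)
          = (r * (4000 * (1 + t + t ^ 2))) / 1000 * Hm C u := by ring
        rw [this, er]
      rwa [e2] at e1
    · rw [h2]
      have : 4443 / 1000 * (1 + t) * (m / 4 * ar C)
        = (m * (4443 * (1 + t))) / 4000 * ar C := by ring
      rw [this, em]
      ring
  rcases hSEG C w m r hC hw0 hm0 hm2 hr0 hr34 hrw with ⟨u, q, hu, hu', h1, h2, h3⟩ | hall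
  · exact fin u q hu hu' h1 h2 h3
  -- all directions are good
  have hgood : ∀ u ∈ C, u ∉ interior C → 4 * r * Hm C u ≤ ar C := by
    intro u hu hu'
    have h1 := hall u hu hu'
    have hH : 0 ≤ Hm C u := (abs_nonneg _).trans (UL5.H27.abs_le_hm hC u hu)
    have h2 : r * (2 - m) * Hm C u ≤ w * Hm C u := mul_le_mul_of_nonneg_right hrw hH
    have h3 : (2 - m) * (4 * r * Hm C u) ≤ (2 - m) * ar C := by nlinarith
    exact le_of_mul_le_mul_left h3 (by linarith)
  by_contra hno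
  have hh : 0 < m / 4 * ar C := by positivity
  have hchord : ∀ u ∈ C, u ∉ interior C →
      ∃ p ∈ C, p + (2 * w) • u ∈ C ∧ m / 4 * ar C ≤ cr u p := by
    intro u hu hu'
    rcases hCHC C u (m / 4 * ar C) w hC hu hu' hw0 with ⟨q, hq, hqs⟩ | ⟨p, l, hp, hpl, hcr, hl⟩
    · exact absurd (fin u q hu hu' (hgood u hu hu') hq hqs) hno
    · refine ⟨p, hp, ?_, hcr.ge⟩
      have hl0 : 0 < l := by linarith
      have h1 := hC.cvx hp hpl (a := 1 - 2 * w / l) (b := 2 * w / l)
        (by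
          rw [sub_nonneg, div_le_one hl0]
          exact hl.le) (by positivity) (by ring)
      have h2 : (1 - 2 * w / l) • p + (2 * w / l) • (p + l • u) = p + (2 * w) • u := by
        rw [smul_add, smul_smul, div_mul_cancel₀ _ hl0.ne']
        module
      rwa [h2] at h1
  have hl1 : 1 < 2 * w := by
    have : (1 + t) * 1 < (1 + t) * (2 * w) := by nlinarith
    exact lt_of_mul_lt_mul_left this hp1.le
  have hl2 : 2 * w ≤ 3 / 2 := by
    have : (1 + t) * (2 * w) ≤ (1 + t) * (3 / 2) := by nlinarith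
    exact le_of_mul_le_mul_left this hp1
  have hfin := hPLM C (2 * w) (m / 4 * ar C) hC hl1 hl2 hh hchord
  have hl3 : 2 * w - 1 ≤ 3 / 7 := by
    have : (1 + t) * (2 * w) ≤ (1 + t) * (10 / 7) := by nlinarith
    have := le_of_mul_le_mul_left this hp1
    linarith
  have hkey : 1 < (2 * (2 * w) + 2 * (2 * w) ^ 2 - (2 * w) ^ 3) * (m / 4) := by
    have e1 : (2 * (2 * w) + 2 * (2 * w) ^ 2 - (2 * w) ^ 3) * (m / 4)
        = 1000 / 8886 * (9 - (2 * w - 1) ^ 4) := by
      have hwt : t = (1 - w) / w := by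
        rw [eq_div_iff hw0.ne']
        linarith
      have hm' : m = 4000 * (1 + t + t ^ 2) * w / 4443 := by
        rw [hm, hw]
        field_simp
      rw [hm', hwt]
      field_simp
      ring
    have e2 : (2 * w - 1) ^ 4 ≤ (3 / 7) ^ 4 :=
      pow_le_pow_left₀ (by linarith) hl3 4
    rw [e1]
    norm_num at e2 ⊢
    linarith
  have h5 : (2 * (2 * w) + 2 * (2 * w) ^ 2 - (2 * w) ^ 3) * (m / 4 * ar C)
      = (2 * (2 * w) + 2 * (2 * w) ^ 2 - (2 * w) ^ 3) * (m / 4) * ar C := by ring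
  rw [h5] at hfin
  have h6 : 1 * ar C < (2 * (2 * w) + 2 * (2 * w) ^ 2 - (2 * w) ^ 3) * (m / 4) * ar C :=
    mul_lt_mul_of_pos_right hkey har
  linarith

end Pool.Agent.UL6.H7
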